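import Mathlib

set_option autoImplicit false

namespace Pool.Agent.W267.HC

open Finset

/-- noise kernel of one coordinate -/
noncomputable def kap (t : ℝ) (a b : Bool) : ℝ := if a = b then (1 + t) / 2 else (1 - t) / 2

/-- noise kernel on the cube -/
noncomputable def ker {n : ℕ} (t : ℝ) (x y : Fin n → Bool) : ℝ := ∏ i, kap t (x i) (y i)

lemma kap_nonneg {t : ℝ} (h0 : 0 ≤ t) (h1 : t ≤ 1) (a b : Bool) : 0 ≤ kap t a b := by
  unfold kap; split_ifs <;> linarith

lemma ker_nonneg {n : ℕ} {t : ℝ} (h0 : 0 ≤ t) (h1 : t ≤ 1) (x y : Fin n → Bool) :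
    0 ≤ ker t x y := Finset.prod_nonneg fun _ _ => kap_nonneg h0 h1 _ _

/-- unnormalised noise stability form -/
noncomputable def stab {n : ℕ} (t : ℝ) (f g : (Fin n → Bool) → ℝ) : ℝ :=
  ∑ x, ∑ y, f x * g y * ker t x y

/-- second derivative step -/
lemma diff_ge {t y : ℝ} (ht0 : 0 ≤ t) (ht1 : t ≤ 1) (hy0 : 0 ≤ y) (hy1 : y < 1) :
    2 * t * y ≤ (1 + y) ^ t - (1 - y) ^ t := by
  have key : MonotoneOn (fun z : ℝ => (1 + z) ^ t - (1 - z) ^ t - 2 * t * z) (Set.Ico 0 1) := by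
    apply monotoneOn_of_deriv_nonneg (convex_Ico 0 1)
    · intro z hz
      apply ContinuousAt.continuousWithinAt
      have h1 : (1 + z) ≠ 0 := by have := hz.1; linarith [hz.1]
      have h2 : (1 - z) ≠ 0 := by have := hz.2; intro h; linarith [hz.2]
      apply ContinuousAt.sub
      · apply ContinuousAt.sub
        · exact (continuousAt_const.add continuousAt_id).rpow_const (Or.inl h1)
        · exact (continuousAt_const.sub continuousAt_id).rpow_const (Or.inl h2)
      · fun_prop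
    · intro z hz
      rw [interior_Ico] at hz
      have h1 : (1 + z) ≠ 0 := by linarith [hz.1]
      have h2 : (1 - z) ≠ 0 := by intro h; linarith [hz.2]
      have d1 : HasDerivAt (fun z : ℝ => (1 + z) ^ t) (1 * t * (1 + z) ^ (t - 1)) z :=
        ((hasDerivAt_id z).const_add 1).rpow_const (Or.inl h1)
      have d2 : HasDerivAt (fun z : ℝ => (1 - z) ^ t) (-1 * t * (1 - z) ^ (t - 1)) z :=
        ((hasDerivAt_id z).const_sub 1).rpow_const (Or.inl h2)
      exact ((d1.sub d2).sub ((hasDerivAt_id z).const_mul (2 * t))).differentiableAt.differentiableWithinAt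
    · intro z hz
      rw [interior_Ico] at hz
      have h1 : (1 + z) ≠ 0 := by linarith [hz.1]
      have h2 : (1 - z) ≠ 0 := by intro h; linarith [hz.2]
      have h1' : 0 < 1 + z := by linarith [hz.1]
      have h2' : 0 < 1 - z := by linarith [hz.2]
      have d1 : HasDerivAt (fun z : ℝ => (1 + z) ^ t) (1 * t * (1 + z) ^ (t - 1)) z :=
        ((hasDerivAt_id z).const_add 1).rpow_const (Or.inl h1)
      have d2 : HasDerivAt (fun z : ℝ => (1 - z) ^ t) (-1 * t * (1 - z) ^ (t - 1)) z :=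
        ((hasDerivAt_id z).const_sub 1).rpow_const (Or.inl h2)
      have d := ((d1.sub d2).sub ((hasDerivAt_id z).const_mul (2 * t)))
      have e := d.deriv
      have e' : deriv (fun z : ℝ => (1 + z) ^ t - (1 - z) ^ t - 2 * t * z) z =
        1 * t * (1 + z) ^ (t - 1) - -1 * t * (1 - z) ^ (t - 1) - 2 * t * 1 := e
      rw [e']
      set a := (1 + z) ^ (t - 1)
      set b := (1 - z) ^ (t - 1)
      have ha : 0 < a := Real.rpow_pos_of_pos h1' _
      have hb : 0 < b := Real.rpow_pos_of_pos h2' _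
      have hab : 1 ≤ a * b := by
        show 1 ≤ (1 + z) ^ (t - 1) * (1 - z) ^ (t - 1)
        rw [← Real.mul_rpow h1'.le h2'.le]
        apply Real.one_le_rpow_of_pos_of_le_one_of_nonpos
        · positivity
        · nlinarith [hz.1]
        · linarith
      have hs : 2 ≤ a + b := by nlinarith [sq_nonneg (a - b)]
      nlinarith
  have := key (Set.mem_Ico.2 ⟨le_refl 0, by norm_num⟩) (Set.mem_Ico.2 ⟨hy0, hy1⟩) hy0
  simp only [add_zero, sub_zero, Real.one_rpow, mul_zero, sub_self] at this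
  linarith

lemma two_pow_ge {t y : ℝ} (ht0 : 0 ≤ t) (ht1 : t ≤ 1) (hy0 : 0 ≤ y) (hy1 : y ≤ 1) :
    2 + (1 + t) * t * y ^ 2 ≤ (1 + y) ^ (1 + t) + (1 - y) ^ (1 + t) := by
  have key : MonotoneOn (fun z : ℝ => (1 + z) ^ (1 + t) + (1 - z) ^ (1 + t) - (1 + t) * t * z ^ 2)
      (Set.Icc 0 1) := by
    apply monotoneOn_of_deriv_nonneg (convex_Icc 0 1)
    · intro z hz
      apply ContinuousAt.continuousWithinAt
      apply ContinuousAt.sub
      · apply ContinuousAt.add
        · exact (continuousAt_const.add continuousAt_id).rpow_const (Or.inr (by linarith))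
        · exact (continuousAt_const.sub continuousAt_id).rpow_const (Or.inr (by linarith))
      · fun_prop
    · intro z hz
      rw [interior_Icc] at hz
      have h1 : (1 + z) ≠ 0 := by linarith [hz.1]
      have h2 : (1 - z) ≠ 0 := by intro h; linarith [hz.2]
      have d1 : HasDerivAt (fun z : ℝ => (1 + z) ^ (1 + t)) (1 * (1 + t) * (1 + z) ^ ((1 + t) - 1)) z :=
        ((hasDerivAt_id z).const_add 1).rpow_const (Or.inl h1)
      have d2 : HasDerivAt (fun z : ℝ => (1 - z) ^ (1 + t)) (-1 * (1 + t) * (1 - z) ^ ((1 + t) - 1)) z :=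
        ((hasDerivAt_id z).const_sub 1).rpow_const (Or.inl h2)
      exact ((d1.add d2).sub (((hasDerivAt_id z).pow 2).const_mul ((1 + t) * t))).differentiableAt.differentiableWithinAt
    · intro z hz
      rw [interior_Icc] at hz
      have h1 : (1 + z) ≠ 0 := by linarith [hz.1]
      have h2 : (1 - z) ≠ 0 := by intro h; linarith [hz.2]
      have d1 : HasDerivAt (fun z : ℝ => (1 + z) ^ (1 + t)) (1 * (1 + t) * (1 + z) ^ ((1 + t) - 1)) z :=
        ((hasDerivAt_id z).const_add 1).rpow_const (Or.inl h1)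
      have d2 : HasDerivAt (fun z : ℝ => (1 - z) ^ (1 + t)) (-1 * (1 + t) * (1 - z) ^ ((1 + t) - 1)) z :=
        ((hasDerivAt_id z).const_sub 1).rpow_const (Or.inl h2)
      have d3 : HasDerivAt (fun z : ℝ => (1 + t) * t * z ^ 2) ((1 + t) * t * (2 * z)) z := by
        have := ((hasDerivAt_pow 2 z).const_mul ((1 + t) * t))
        simpa using this
      have e := ((d1.add d2).sub d3).deriv
      have e' : deriv (fun z : ℝ => (1 + z) ^ (1 + t) + (1 - z) ^ (1 + t) - (1 + t) * t * z ^ 2) z =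
        1 * (1 + t) * (1 + z) ^ ((1 + t) - 1) + -1 * (1 + t) * (1 - z) ^ ((1 + t) - 1)
          - (1 + t) * t * (2 * z) := e
      rw [e']
      have q := diff_ge ht0 ht1 hz.1.le hz.2
      have q1 : (1 + t) - 1 = t := by ring
      rw [q1]
      nlinarith
  have := key (Set.mem_Icc.2 ⟨le_refl 0, by norm_num⟩) (Set.mem_Icc.2 ⟨hy0, hy1⟩) hy0
  simp only [add_zero, sub_zero, Real.one_rpow] at this
  norm_num at this
  linarith

/-- the two point inequality (p,2), p = 1 + t -/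
lemma two_point {t u v : ℝ} (ht0 : 0 ≤ t) (ht1 : t ≤ 1) (hu : 0 ≤ u) (hv : 0 ≤ v) (huv : v ≤ u) :
    u ^ 2 + t * v ^ 2 ≤ ((((u + v) ^ (1 + t) + (u - v) ^ (1 + t)) / 2) ^ (1 / (1 + t))) ^ 2 := by
  rcases hu.eq_or_lt with h | hu'
  · have hv0 : v = 0 := le_antisymm (h ▸ huv) hv
    rw [← h, hv0]
    have : (0:ℝ) ≤ ((((0 + 0 : ℝ) ^ (1 + t) + (0 - 0 : ℝ) ^ (1 + t)) / 2) ^ (1 / (1 + t))) ^ 2 := sq_nonneg _
    simpa using this
  · have hp : (0:ℝ) < 1 + t := by linarith
    set y := v / u with hy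
    have hy0 : 0 ≤ y := div_nonneg hv hu
    have hy1 : y ≤ 1 := (div_le_one hu').2 huv
    have hvu : v = u * y := by rw [hy]; field_simp
    have e1 : (u + v) ^ (1 + t) = u ^ (1 + t) * (1 + y) ^ (1 + t) := by
      rw [hvu, ← Real.mul_rpow hu (by linarith)]; ring_nf
    have e2 : (u - v) ^ (1 + t) = u ^ (1 + t) * (1 - y) ^ (1 + t) := by
      rw [hvu, ← Real.mul_rpow hu (by linarith)]; ring_nf
    have e3 : ((u + v) ^ (1 + t) + (u - v) ^ (1 + t)) / 2
        = u ^ (1 + t) * (((1 + y) ^ (1 + t) + (1 - y) ^ (1 + t)) / 2) := by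
      rw [e1, e2]; ring
    set w := ((1 + y) ^ (1 + t) + (1 - y) ^ (1 + t)) / 2 with hw
    have hw1 : 1 + (1 + t) / 2 * (t * y ^ 2) ≤ w := by
      have := two_pow_ge ht0 ht1 hy0 hy1
      rw [hw]; linarith
    have hw0 : 0 ≤ w := le_trans (by positivity) hw1
    have hty : 0 ≤ t * y ^ 2 := by positivity
    have hb : (1 + t * y ^ 2) ^ ((1 + t) / 2) ≤ 1 + (1 + t) / 2 * (t * y ^ 2) :=
      rpow_one_add_le_one_add_mul_self (by linarith) (by positivity) (by linarith)
    have hle : (1 + t * y ^ 2) ^ ((1 + t) / 2) ≤ w := le_trans hb hw1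
    have hpos : 0 < 1 + t * y ^ 2 := by positivity
    have h4 : 1 + t * y ^ 2 ≤ (w ^ (1 / (1 + t))) ^ 2 := by
      have := Real.rpow_le_rpow (by positivity) hle (show (0:ℝ) ≤ 2 / (1 + t) by positivity)
      rw [← Real.rpow_mul hpos.le] at this
      have e : (1 + t) / 2 * (2 / (1 + t)) = 1 := by field_simp
      rw [e, Real.rpow_one] at this
      refine le_trans this (le_of_eq ?_)
      rw [← Real.rpow_natCast, ← Real.rpow_mul hw0]
      congr 1
      push_cast; ring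
    rw [e3, Real.mul_rpow (by positivity) hw0, ← Real.rpow_mul hu,
      mul_one_div_cancel hp.ne', Real.rpow_one, mul_pow]
    calc u ^ 2 + t * v ^ 2 = u ^ 2 * (1 + t * y ^ 2) := by rw [hvu]; ring
      _ ≤ u ^ 2 * (w ^ (1 / (1 + t))) ^ 2 := by gcongr

/-- `p`-mean of two numbers, `p = 1 + t` -/
noncomputable def mn (t a b : ℝ) : ℝ := ((a ^ (1 + t) + b ^ (1 + t)) / 2) ^ (1 / (1 + t))

lemma mn_nonneg {t a b : ℝ} (ha : 0 ≤ a) (hb : 0 ≤ b) : 0 ≤ mn t a b := by
  unfold mn; positivity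

lemma mn_comm (t a b : ℝ) : mn t a b = mn t b a := by unfold mn; rw [add_comm]

lemma sq_le_mn {t a b : ℝ} (ht0 : 0 ≤ t) (ht1 : t ≤ 1) (ha : 0 ≤ a) (hb : 0 ≤ b) :
    ((a + b) / 2) ^ 2 + t * ((a - b) / 2) ^ 2 ≤ (mn t a b) ^ 2 := by
  rcases le_total b a with h | h
  · have := two_point (u := (a + b) / 2) (v := (a - b) / 2) ht0 ht1 (by linarith) (by linarith) (by linarith)
    have e1 : (a + b) / 2 + (a - b) / 2 = a := by ring
    have e2 : (a + b) / 2 - (a - b) / 2 = b := by ring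
    rw [e1, e2] at this
    exact this
  · have := two_point (u := (a + b) / 2) (v := (b - a) / 2) ht0 ht1 (by linarith) (by linarith) (by linarith)
    have e1 : (a + b) / 2 + (b - a) / 2 = b := by ring
    have e2 : (a + b) / 2 - (b - a) / 2 = a := by ring
    rw [e1, e2] at this
    have e3 : ((a - b) / 2) ^ 2 = ((b - a) / 2) ^ 2 := by ring
    rw [e3, mn_comm]
    exact this

lemma bil {t a0 a1 b0 b1 : ℝ} (ht0 : 0 ≤ t) (ht1 : t ≤ 1) (ha0 : 0 ≤ a0) (ha1 : 0 ≤ a1)
    (hb0 : 0 ≤ b0) (hb1 : 0 ≤ b1) :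
    (1 + t) / 2 * (a0 * b0 + a1 * b1) + (1 - t) / 2 * (a0 * b1 + a1 * b0)
      ≤ 2 * (mn t a0 a1 * mn t b0 b1) := by
  have h1 := sq_le_mn ht0 ht1 ha0 ha1
  have h2 := sq_le_mn ht0 ht1 hb0 hb1
  have m1 := mn_nonneg (t := t) ha0 ha1
  have m2 := mn_nonneg (t := t) hb0 hb1
  set α := (a0 + a1) / 2
  set α' := (a0 - a1) / 2
  set β := (b0 + b1) / 2
  set β' := (b0 - b1) / 2
  set M := mn t a0 a1
  set N := mn t b0 b1
  have e : (1 + t) / 2 * (a0 * b0 + a1 * b1) + (1 - t) / 2 * (a0 * b1 + a1 * b0)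
      = 2 * (α * β + t * (α' * β')) := by simp only [α, α', β, β']; ring
  rw [e]
  have hMN : α * β + t * (α' * β') ≤ M * N := by
    apply le_of_sq_le_sq_of_nonneg_aux ht0 h1 h2 m1 m2
  linarith
where
  le_of_sq_le_sq_of_nonneg_aux {t α α' β β' M N : ℝ} (ht0 : 0 ≤ t)
      (h1 : α ^ 2 + t * α' ^ 2 ≤ M ^ 2) (h2 : β ^ 2 + t * β' ^ 2 ≤ N ^ 2) (m1 : 0 ≤ M) (m2 : 0 ≤ N) :
      α * β + t * (α' * β') ≤ M * N := by
    apply abs_le_of_sq_le_sq' ?_ (by positivity) |>.2
    calc (α * β + t * (α' * β')) ^ 2 ≤ (α ^ 2 + t * α' ^ 2) * (β ^ 2 + t * β' ^ 2) := by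
          have := mul_nonneg ht0 (sq_nonneg (α * β' - α' * β))
          nlinarith
      _ ≤ M ^ 2 * N ^ 2 := by
          apply mul_le_mul h1 h2 _ (sq_nonneg _)
          positivity
      _ = (M * N) ^ 2 := by ring

end Pool.Agent.W267.HC
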