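import Pool.Agent.W267.HC

set_option autoImplicit false

namespace Pool.Agent.W267.HC

open Finset

lemma sum_cons {n : ℕ} (F : (Fin (n + 1) → Bool) → ℝ) :
    ∑ x, F x = ∑ a : Bool, ∑ y : Fin n → Bool, F (Fin.cons a y) := by
  rw [← (Fin.consEquiv (fun _ : Fin (n + 1) => Bool)).sum_comp F, Fintype.sum_prod_type]
  rfl

lemma ker_cons {n : ℕ} (t : ℝ) (a b : Bool) (x y : Fin n → Bool) :
    ker t (Fin.cons a x : Fin (n + 1) → Bool) (Fin.cons b y) = kap t a b * ker t x y := by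
  unfold ker
  rw [Fin.prod_univ_succ]
  simp

lemma stab_cons {n : ℕ} (t : ℝ) (f g : (Fin (n + 1) → Bool) → ℝ) :
    stab t f g = ∑ a : Bool, ∑ b : Bool,
      kap t a b * stab t (fun x => f (Fin.cons a x)) (fun y => g (Fin.cons b y)) := by
  unfold stab
  rw [sum_cons]
  refine Finset.sum_congr rfl fun a _ => ?_
  simp_rw [sum_cons (fun y => f _ * g y * ker t _ y), Finset.mul_sum]
  rw [Finset.sum_comm]
  refine Finset.sum_congr rfl fun b _ => ?_
  refine Finset.sum_congr rfl fun x _ => ?_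
  refine Finset.sum_congr rfl fun y _ => ?_
  rw [ker_cons]; ring

/-- `p`-mean of a function, `p = 1 + t` -/
noncomputable def nrm {n : ℕ} (t : ℝ) (f : (Fin n → Bool) → ℝ) : ℝ :=
  ((∑ x, f x ^ (1 + t)) / 2 ^ n) ^ (1 / (1 + t))

lemma nrm_nonneg {n : ℕ} {t : ℝ} {f : (Fin n → Bool) → ℝ} (hf : ∀ x, 0 ≤ f x) :
    0 ≤ nrm t f := by
  unfold nrm
  apply Real.rpow_nonneg
  apply div_nonneg _ (by positivity)
  exact Finset.sum_nonneg fun x _ => Real.rpow_nonneg (hf x) _

lemma nrm_pow {n : ℕ} {t : ℝ} (ht : 0 ≤ t) {f : (Fin n → Bool) → ℝ} (hf : ∀ x, 0 ≤ f x) :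
    nrm t f ^ (1 + t) = (∑ x, f x ^ (1 + t)) / 2 ^ n := by
  unfold nrm
  rw [← Real.rpow_mul, one_div_mul_cancel (by linarith), Real.rpow_one]
  apply div_nonneg _ (by positivity)
  exact Finset.sum_nonneg fun x _ => Real.rpow_nonneg (hf x) _

lemma nrm_cons {n : ℕ} {t : ℝ} (ht : 0 ≤ t) {f : (Fin (n + 1) → Bool) → ℝ} (hf : ∀ x, 0 ≤ f x) :
    nrm t f = mn t (nrm t (fun x => f (Fin.cons true x))) (nrm t (fun x => f (Fin.cons false x))) := by
  unfold mn
  rw [nrm_pow ht (fun x => hf _), nrm_pow ht (fun x => hf _)]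
  unfold nrm
  congr 1
  rw [sum_cons]
  simp only [Fintype.sum_bool]
  rw [pow_succ]
  field_simp

lemma hyper {n : ℕ} {t : ℝ} (ht0 : 0 ≤ t) (ht1 : t ≤ 1) (f g : (Fin n → Bool) → ℝ)
    (hf : ∀ x, 0 ≤ f x) (hg : ∀ x, 0 ≤ g x) :
    stab t f g ≤ 2 ^ n * (nrm t f * nrm t g) := by
  induction n with
  | zero =>
    have hp : (1 + t) ≠ 0 := by linarith
    unfold stab nrm ker
    simp only [Finset.univ_eq_empty, Finset.prod_empty, mul_one, pow_zero, div_one, one_mul]
    rw [Fintype.sum_unique, Fintype.sum_unique, Fintype.sum_unique, Fintype.sum_unique]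
    rw [← Real.rpow_mul (hf _), ← Real.rpow_mul (hg _), mul_one_div_cancel hp, Real.rpow_one,
      Real.rpow_one]
  | succ n ih =>
    rw [stab_cons, nrm_cons ht0 hf, nrm_cons ht0 hg]
    simp only [Fintype.sum_bool]
    set F1 := fun x : Fin n → Bool => f (Fin.cons true x)
    set F0 := fun x : Fin n → Bool => f (Fin.cons false x)
    set G1 := fun x : Fin n → Bool => g (Fin.cons true x)
    set G0 := fun x : Fin n → Bool => g (Fin.cons false x)
    have hF1 : ∀ x, 0 ≤ F1 x := fun x => hf _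
    have hF0 : ∀ x, 0 ≤ F0 x := fun x => hf _
    have hG1 : ∀ x, 0 ≤ G1 x := fun x => hg _
    have hG0 : ∀ x, 0 ≤ G0 x := fun x => hg _
    have k11 : kap t true true = (1 + t) / 2 := by simp [kap]
    have k00 : kap t false false = (1 + t) / 2 := by simp [kap]
    have k10 : kap t true false = (1 - t) / 2 := by simp [kap]
    have k01 : kap t false true = (1 - t) / 2 := by simp [kap]
    rw [k11, k00, k10, k01]
    have i11 := ih F1 G1 hF1 hG1
    have i10 := ih F1 G0 hF1 hG0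
    have i01 := ih F0 G1 hF0 hG1
    have i00 := ih F0 G0 hF0 hG0
    have c1 : 0 ≤ (1 + t) / 2 := by linarith
    have c2 : 0 ≤ (1 - t) / 2 := by linarith
    have j11 := mul_le_mul_of_nonneg_left i11 c1
    have j00 := mul_le_mul_of_nonneg_left i00 c1
    have j10 := mul_le_mul_of_nonneg_left i10 c2
    have j01 := mul_le_mul_of_nonneg_left i01 c2
    have b := bil ht0 ht1 (nrm_nonneg (t := t) hF1) (nrm_nonneg (t := t) hF0)
      (nrm_nonneg (t := t) hG1) (nrm_nonneg (t := t) hG0)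
    have b' := mul_le_mul_of_nonneg_left b (show (0:ℝ) ≤ 2 ^ n by positivity)
    rw [pow_succ]
    nlinarith

/-- indicator -/
noncomputable def ind {n : ℕ} (B : Finset (Fin n → Bool)) (x : Fin n → Bool) : ℝ :=
  if x ∈ B then 1 else 0

lemma hyper_ind {n : ℕ} {t : ℝ} (ht0 : 0 ≤ t) (ht1 : t ≤ 1) (B : Finset (Fin n → Bool)) :
    stab t (ind B) (ind B) ≤ 2 ^ n * ((B.card : ℝ) / 2 ^ n) ^ (2 / (1 + t)) := by
  have hp : (0:ℝ) < 1 + t := by linarith
  have h := hyper ht0 ht1 (ind B) (ind B) (fun x => by unfold ind; split_ifs <;> norm_num)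
    (fun x => by unfold ind; split_ifs <;> norm_num)
  have e : nrm t (ind B) = ((B.card : ℝ) / 2 ^ n) ^ (1 / (1 + t)) := by
    unfold nrm
    congr 2
    have : ∀ x : Fin n → Bool, ind B x ^ (1 + t) = if x ∈ B then 1 else 0 := by
      intro x; unfold ind
      split_ifs
      · simp
      · exact Real.zero_rpow hp.ne'
    simp_rw [this]
    simp
  rw [e] at h
  refine le_trans h (le_of_eq ?_)
  congr 1
  rw [← Real.rpow_add_of_nonneg (by positivity) (by positivity) (by positivity)]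
  congr 1
  ring

end Pool.Agent.W267.HC
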