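import Pool.Agent.W267.HC2

set_option autoImplicit false

namespace Pool.Agent.W267.HC

open Finset

/-- flipping one coordinate -/
def flp {n : ℕ} (i : Fin n) (x : Fin n → Bool) : Fin n → Bool := Function.update x i (!(x i))

lemma flp_invol {n : ℕ} (i : Fin n) : Function.Involutive (flp i) := by
  intro x
  unfold flp
  simp

lemma sum_flp {n : ℕ} (i : Fin n) (F : (Fin n → Bool) → ℝ) : ∑ x, F (flp i x) = ∑ x, F x :=
  Equiv.sum_comp (Function.Involutive.toPerm (flp i) (flp_invol i)) F

/-- kernel without coordinate `i` -/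
noncomputable def kr {n : ℕ} (t : ℝ) (i : Fin n) (x y : Fin n → Bool) : ℝ :=
  ∏ j ∈ univ.erase i, kap t (x j) (y j)

/-- derivative of `kap` -/
noncomputable def sg (a b : Bool) : ℝ := if a = b then 1 / 2 else -(1 / 2)

lemma kr_nonneg {n : ℕ} {t : ℝ} (h0 : 0 ≤ t) (h1 : t ≤ 1) (i : Fin n) (x y : Fin n → Bool) :
    0 ≤ kr t i x y := Finset.prod_nonneg fun _ _ => kap_nonneg h0 h1 _ _

lemma kr_flp_left {n : ℕ} (t : ℝ) (i : Fin n) (x y : Fin n → Bool) :
    kr t i (flp i x) y = kr t i x y := by
  unfold kr flp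
  refine Finset.prod_congr rfl fun j hj => ?_
  rw [Function.update_of_ne (Finset.ne_of_mem_erase hj)]

lemma kr_flp_right {n : ℕ} (t : ℝ) (i : Fin n) (x y : Fin n → Bool) :
    kr t i x (flp i y) = kr t i x y := by
  unfold kr flp
  refine Finset.prod_congr rfl fun j hj => ?_
  rw [Function.update_of_ne (Finset.ne_of_mem_erase hj)]

lemma flp_self {n : ℕ} (i : Fin n) (x : Fin n → Bool) : flp i x i = !(x i) := by
  unfold flp; simp

lemma sg_not_left (a b : Bool) : sg (!a) b = - sg a b := by
  cases a <;> cases b <;> simp [sg]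

lemma sg_not_right (a b : Bool) : sg a (!b) = - sg a b := by
  cases a <;> cases b <;> simp [sg]

lemma kap_add (t : ℝ) (a b : Bool) : kap t a b + kap t a (!b) = 1 := by
  cases a <;> cases b <;> simp [kap] <;> ring

lemma ker_eq {n : ℕ} (t : ℝ) (i : Fin n) (x y : Fin n → Bool) :
    ker t x y = kap t (x i) (y i) * kr t i x y := by
  unfold ker kr
  rw [Finset.mul_prod_erase univ (fun j => kap t (x j) (y j)) (Finset.mem_univ i)]

lemma kap_deriv (t : ℝ) (a b : Bool) : HasDerivAt (fun t => kap t a b) (sg a b) t := by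
  unfold kap sg
  split_ifs
  · have := ((hasDerivAt_id t).const_add 1).div_const 2
    simpa using this
  · have h : HasDerivAt (fun x : ℝ => (1 - x) / 2) (-1 / 2) t :=
      ((hasDerivAt_id t).const_sub 1).div_const 2
    have e : (-(1 / 2) : ℝ) = -1 / 2 := by norm_num
    rw [e]; exact h

lemma ker_deriv {n : ℕ} (t : ℝ) (x y : Fin n → Bool) :
    HasDerivAt (fun t => ker t x y) (∑ i, kr t i x y * sg (x i) (y i)) t := by
  have h := HasDerivAt.fun_finsetProd (u := (univ : Finset (Fin n)))
    (f := fun i t => kap t (x i) (y i)) (f' := fun i => sg (x i) (y i)) (x := t)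
    (fun i _ => kap_deriv t (x i) (y i))
  exact h

/-- the derivative in direction `i` -/
noncomputable def dd {n : ℕ} (t : ℝ) (i : Fin n) (f : (Fin n → Bool) → ℝ) : ℝ :=
  ∑ x, ∑ y, f x * f y * (kr t i x y * sg (x i) (y i))

lemma stab_deriv {n : ℕ} (t : ℝ) (f : (Fin n → Bool) → ℝ) :
    HasDerivAt (fun t => stab t f f) (∑ i, dd t i f) t := by
  have h : HasDerivAt (fun t => stab t f f)
      (∑ x, ∑ y, f x * f y * ∑ i, kr t i x y * sg (x i) (y i)) t := by
    unfold stab
    apply HasDerivAt.fun_sum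
    intro x _
    apply HasDerivAt.fun_sum
    intro y _
    exact (ker_deriv t x y).const_mul _
  convert h using 1
  unfold dd
  rw [Finset.sum_comm]
  refine Finset.sum_congr rfl fun x _ => ?_
  rw [Finset.sum_comm]
  refine Finset.sum_congr rfl fun y _ => ?_
  rw [Finset.mul_sum]

lemma dd_le {n : ℕ} {t : ℝ} (h0 : 0 ≤ t) (h1 : t ≤ 1) (i : Fin n) (f d : (Fin n → Bool) → ℝ)
    (hd : ∀ x, d x = |f x - f (flp i x)|) :
    dd t i f ≤ 1 / 4 * stab t d d := by
  have hdf : ∀ x, d (flp i x) = d x := by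
    intro x
    rw [hd, hd, flp_invol i x, abs_sub_comm]
  have A1 : dd t i f = ∑ x, ∑ y, f (flp i x) * f y * (kr t i x y * -sg (x i) (y i)) := by
    unfold dd
    rw [← sum_flp i (fun x => ∑ y, f x * f y * (kr t i x y * sg (x i) (y i)))]
    refine Finset.sum_congr rfl fun x _ => Finset.sum_congr rfl fun y _ => ?_
    rw [kr_flp_left, flp_self, sg_not_left]
  have A2 : 2 * dd t i f = ∑ x, ∑ y, (f x - f (flp i x)) * f y * (kr t i x y * sg (x i) (y i)) := by
    rw [two_mul]
    nth_rw 2 [A1]
    unfold dd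
    rw [← Finset.sum_add_distrib]
    refine Finset.sum_congr rfl fun x _ => ?_
    rw [← Finset.sum_add_distrib]
    refine Finset.sum_congr rfl fun y _ => ?_
    ring
  have A3 : 2 * dd t i f = ∑ x, ∑ y, (f x - f (flp i x)) * f (flp i y) *
      (kr t i x y * -sg (x i) (y i)) := by
    rw [A2]
    refine Finset.sum_congr rfl fun x _ => ?_
    rw [← sum_flp i (fun y => (f x - f (flp i x)) * f y * (kr t i x y * sg (x i) (y i)))]
    refine Finset.sum_congr rfl fun y _ => ?_
    rw [kr_flp_right, flp_self, sg_not_right]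
  have A4 : 4 * dd t i f = ∑ x, ∑ y, (f x - f (flp i x)) * (f y - f (flp i y)) *
      (kr t i x y * sg (x i) (y i)) := by
    have : 4 * dd t i f = 2 * dd t i f + 2 * dd t i f := by ring
    rw [this]
    nth_rw 1 [A2]
    rw [A3, ← Finset.sum_add_distrib]
    refine Finset.sum_congr rfl fun x _ => ?_
    rw [← Finset.sum_add_distrib]
    refine Finset.sum_congr rfl fun y _ => ?_
    ring
  have A5 : 4 * dd t i f ≤ ∑ x, ∑ y, d x * d y * (kr t i x y * (1 / 2)) := by
    rw [A4]
    refine Finset.sum_le_sum fun x _ => Finset.sum_le_sum fun y _ => ?_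
    calc (f x - f (flp i x)) * (f y - f (flp i y)) * (kr t i x y * sg (x i) (y i))
        ≤ |(f x - f (flp i x)) * (f y - f (flp i y)) * (kr t i x y * sg (x i) (y i))| := le_abs_self _
      _ = d x * d y * (kr t i x y * (1 / 2)) := by
          rw [abs_mul, abs_mul, abs_mul, ← hd, ← hd, abs_of_nonneg (kr_nonneg h0 h1 i x y)]
          congr 2
          unfold sg
          split_ifs
          · rw [abs_of_pos]; norm_num
          · rw [abs_neg, abs_of_pos]; norm_num
  have B1 : stab t d d = ∑ x, ∑ y, d x * d y * (kap t (x i) (!(y i)) * kr t i x y) := by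
    unfold stab
    refine Finset.sum_congr rfl fun x _ => ?_
    rw [← sum_flp i (fun y => d x * d y * ker t x y)]
    refine Finset.sum_congr rfl fun y _ => ?_
    rw [ker_eq t i, kr_flp_right, flp_self, hdf]
  have B2 : 2 * stab t d d = ∑ x, ∑ y, d x * d y * kr t i x y := by
    rw [two_mul]
    nth_rw 2 [B1]
    unfold stab
    rw [← Finset.sum_add_distrib]
    refine Finset.sum_congr rfl fun x _ => ?_
    rw [← Finset.sum_add_distrib]
    refine Finset.sum_congr rfl fun y _ => ?_
    rw [ker_eq t i]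
    have := kap_add t (x i) (y i)
    linear_combination (d x * d y * kr t i x y) * this
  have A6 : 4 * dd t i f ≤ 1 / 2 * (2 * stab t d d) := by
    refine le_trans A5 (le_of_eq ?_)
    rw [B2, Finset.mul_sum]
    refine Finset.sum_congr rfl fun x _ => ?_
    rw [Finset.mul_sum]
    refine Finset.sum_congr rfl fun y _ => ?_
    ring
  linarith

lemma stab_one {n : ℕ} (f : (Fin n → Bool) → ℝ) : stab 1 f f = ∑ x, f x * f x := by
  unfold stab
  refine Finset.sum_congr rfl fun x _ => ?_
  rw [Finset.sum_eq_single x]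
  · have : ker 1 x x = 1 := by
      unfold ker kap; simp
    rw [this, mul_one]
  · intro y _ hy
    have : ker 1 x y = 0 := by
      unfold ker
      obtain ⟨j, hj⟩ := Function.ne_iff.1 hy
      apply Finset.prod_eq_zero (Finset.mem_univ j)
      unfold kap
      rw [if_neg (fun h => hj h.symm)]; norm_num
    rw [this, mul_zero]
  · intro h; exact absurd (Finset.mem_univ x) h

lemma stab_zero {n : ℕ} (f : (Fin n → Bool) → ℝ) : stab 0 f f = (∑ x, f x) ^ 2 / 2 ^ n := by
  have h : ∀ x y : Fin n → Bool, ker 0 x y = 1 / 2 ^ n := by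
    intro x y
    unfold ker kap
    simp
  unfold stab
  simp_rw [h, sq, Finset.sum_mul_sum, Finset.sum_div]
  refine Finset.sum_congr rfl fun x _ => Finset.sum_congr rfl fun y _ => ?_
  ring

end Pool.Agent.W267.HC
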