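import Pool.Agent.W267.HC3

set_option autoImplicit false

namespace Pool.Agent.W267.HC

open Finset

/-- primitive of an upper bound of `b ^ (2 / (1 + t))` -/
noncomputable def HH (b t : ℝ) : ℝ :=
  2 * b / Real.log (4 / b) * (b / 4) ^ ((1 - t) / (1 + t))

lemma HH_deriv {b t : ℝ} (hb : 0 < b) (hb1 : b ≤ 1) (ht : 0 ≤ t) :
    HasDerivAt (fun t => HH b t) (4 * b / (1 + t) ^ 2 * (b / 4) ^ ((1 - t) / (1 + t))) t := by
  have h1 : (1 + t) ≠ 0 := by linarith
  have hs : HasDerivAt (fun t : ℝ => (1 - t) / (1 + t)) (((-1) * (1 + t) - (1 - t) * 1) / (1 + t) ^ 2) t :=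
    ((hasDerivAt_id t).const_sub 1).div ((hasDerivAt_id t).const_add 1) h1
  have h4 : (0:ℝ) < b / 4 := by positivity
  have h := (hs.const_rpow h4).const_mul (2 * b / Real.log (4 / b))
  have hl : 0 < Real.log (4 / b) := Real.log_pos (by rw [lt_div_iff₀ hb]; linarith)
  have e : Real.log (b / 4) = - Real.log (4 / b) := by
    rw [← Real.log_inv]; congr 1; rw [inv_div]
  have e' : 4 * b / (1 + t) ^ 2 * (b / 4) ^ ((1 - t) / (1 + t)) =
      2 * b / Real.log (4 / b) * (Real.log (b / 4) * (((-1) * (1 + t) - (1 - t) * 1) / (1 + t) ^ 2) *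
        (b / 4) ^ ((1 - t) / (1 + t))) := by
    rw [e]
    field_simp
    ring
  rw [e']
  unfold HH
  exact h

lemma HH_deriv_ge {b t : ℝ} (hb : 0 < b) (ht0 : 0 ≤ t) (ht1 : t ≤ 1) :
    b ^ (2 / (1 + t)) ≤ 4 * b / (1 + t) ^ 2 * (b / 4) ^ ((1 - t) / (1 + t)) := by
  have h1 : 0 < 1 + t := by linarith
  set s := (1 - t) / (1 + t) with hs
  have hs0 : 0 ≤ s := div_nonneg (by linarith) h1.le
  have hs1 : s ≤ 1 := by rw [hs, div_le_one h1]; linarith
  have e1 : 2 / (1 + t) = 1 + s := by rw [hs]; field_simp; ring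
  have h2 : (2:ℝ) ^ s ≤ 1 + s := by
    have := rpow_one_add_le_one_add_mul_self (s := (1:ℝ)) (by norm_num) hs0 hs1
    have e : (1:ℝ) + 1 = 2 := by norm_num
    rw [e] at this; linarith
  have h3 : (4:ℝ) ^ s = (2 ^ s) ^ 2 := by
    rw [← Real.rpow_natCast, ← Real.rpow_mul (by norm_num), mul_comm, Real.rpow_mul (by norm_num)]
    norm_num
  have h2p : (0:ℝ) < 2 ^ s := by positivity
  have h4 : (4:ℝ) ^ s ≤ (1 + s) ^ 2 := by
    rw [h3]; exact pow_le_pow_left₀ h2p.le h2 2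
  have h4p : (0:ℝ) < 4 ^ s := by positivity
  have e2 : (1 + s) ^ 2 = 4 / (1 + t) ^ 2 := by rw [← e1]; field_simp; norm_num
  rw [e1, Real.rpow_add hb, Real.rpow_one, Real.div_rpow hb.le (by norm_num)]
  have e3 : 4 * b / (1 + t) ^ 2 * (b ^ s / 4 ^ s) = (b * b ^ s) * ((1 + s) ^ 2 / 4 ^ s) := by
    rw [e2]; field_simp
  rw [e3]
  have : 1 ≤ (1 + s) ^ 2 / 4 ^ s := by rw [le_div_iff₀ h4p]; linarith
  have hbb : 0 ≤ b * b ^ s := by positivity
  nlinarith

lemma HH_zero (t : ℝ) : HH 0 t = 0 := by unfold HH; simp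

lemma HH_one_sub {b : ℝ} : HH b 1 - HH b 0 = 2 * (b * (1 - b / 4) / Real.log (4 / b)) := by
  unfold HH
  norm_num
  ring

/-- the set of points pivotal for `i` -/
def piv {n : ℕ} (A : Finset (Fin n → Bool)) (i : Fin n) : Finset (Fin n → Bool) :=
  univ.filter (fun x => ¬ (x ∈ A ↔ Function.update x i (!(x i)) ∈ A))

lemma ind_piv {n : ℕ} (A : Finset (Fin n → Bool)) (i : Fin n) (x : Fin n → Bool) :
    ind (piv A i) x = |ind A x - ind A (flp i x)| := by
  unfold ind piv flp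
  simp only [Finset.mem_filter, Finset.mem_univ, true_and]
  by_cases h1 : x ∈ A <;> by_cases h2 : Function.update x i (!(x i)) ∈ A <;> simp [h1, h2]

lemma card_le {n : ℕ} (B : Finset (Fin n → Bool)) : (B.card : ℝ) / 2 ^ n ≤ 1 := by
  rw [div_le_one (by positivity)]
  have : B.card ≤ 2 ^ n := by
    have := Finset.card_le_univ B
    simpa using this
  exact_mod_cast this

lemma main {n : ℕ} (A : Finset (Fin n → Bool)) :
    2 * ((A.card : ℝ) / 2 ^ n) * (1 - (A.card : ℝ) / 2 ^ n) ≤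
      ∑ i, (((piv A i).card : ℝ) / 2 ^ n) * (1 - (((piv A i).card : ℝ) / 2 ^ n) / 4) /
        Real.log (4 / (((piv A i).card : ℝ) / 2 ^ n)) := by
  set b : Fin n → ℝ := fun i => ((piv A i).card : ℝ) / 2 ^ n with hbdef
  have hb0 : ∀ i, 0 ≤ b i := fun i => by simp only [hbdef]; positivity
  have hb1 : ∀ i, b i ≤ 1 := fun i => card_le _
  have hpn : (0:ℝ) < 2 ^ n := by positivity
  -- derivative of HH (b i)
  have hder : ∀ i, ∀ t : ℝ, 0 ≤ t → t ≤ 1 → ∃ D, HasDerivAt (fun t => HH (b i) t) D t ∧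
      b i ^ (2 / (1 + t)) ≤ D := by
    intro i t ht0 ht1
    rcases (hb0 i).eq_or_lt with h | h
    · refine ⟨0, ?_, ?_⟩
      · rw [← h]
        simp_rw [HH_zero]
        exact hasDerivAt_const _ _
      · rw [← h, Real.zero_rpow]
        have : 0 < 1 + t := by linarith
        positivity
    · exact ⟨_, HH_deriv h (hb1 i) ht0, HH_deriv_ge h ht0 ht1⟩
  choose! D hD1 hD2 using hder
  set g : ℝ → ℝ := fun t => stab t (ind A) (ind A) / 2 ^ n - 1 / 4 * ∑ i, HH (b i) t with hg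
  have hgd : ∀ t : ℝ, 0 ≤ t → t ≤ 1 →
      HasDerivAt g ((∑ i, dd t i (ind A)) / 2 ^ n - 1 / 4 * ∑ i, D i t) t := by
    intro t ht0 ht1
    apply HasDerivAt.sub
    · exact (stab_deriv t (ind A)).div_const _
    · apply HasDerivAt.const_mul
      apply HasDerivAt.fun_sum
      intro i _
      exact hD1 i t ht0 ht1
  have hanti : AntitoneOn g (Set.Icc 0 1) := by
    apply antitoneOn_of_deriv_nonpos (convex_Icc 0 1)
    · intro t ht
      exact (hgd t ht.1 ht.2).continuousAt.continuousWithinAt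
    · intro t ht
      rw [interior_Icc] at ht
      exact (hgd t ht.1.le ht.2.le).differentiableAt.differentiableWithinAt
    · intro t ht
      rw [interior_Icc] at ht
      rw [(hgd t ht.1.le ht.2.le).deriv]
      have hi : ∀ i ∈ (univ : Finset (Fin n)), dd t i (ind A) ≤ 2 ^ n * (1 / 4 * D i t) := by
        intro i _
        have h1 := dd_le ht.1.le ht.2.le i (ind A) (ind (piv A i)) (ind_piv A i)
        have h2 := hyper_ind ht.1.le ht.2.le (piv A i)
        have h3 := hD2 i t ht.1.le ht.2.le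
        have h4 : (((piv A i).card : ℝ) / 2 ^ n) ^ (2 / (1 + t)) ≤ D i t := h3
        have h5 := mul_le_mul_of_nonneg_left h4 hpn.le
        linarith
      have hs := Finset.sum_le_sum hi
      rw [← Finset.mul_sum, ← Finset.mul_sum] at hs
      have : (∑ i, dd t i (ind A)) / 2 ^ n ≤ 1 / 4 * ∑ i, D i t := by
        rw [div_le_iff₀ hpn]; linarith
      linarith
  have h01 := hanti (Set.left_mem_Icc.2 zero_le_one) (Set.right_mem_Icc.2 zero_le_one) zero_le_one
  simp only [hg] at h01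
  rw [stab_one, stab_zero] at h01
  have e1 : ∑ x, ind A x * ind A x = (A.card : ℝ) := by
    unfold ind; simp
  have e2 : ∑ x, ind A x = (A.card : ℝ) := by
    unfold ind; simp
  rw [e1, e2] at h01
  have e3 : ∑ i, HH (b i) 1 - ∑ i, HH (b i) 0 =
      2 * ∑ i, (b i * (1 - b i / 4) / Real.log (4 / b i)) := by
    rw [← Finset.sum_sub_distrib, Finset.mul_sum]
    exact Finset.sum_congr rfl fun i _ => HH_one_sub
  have e4 : (A.card : ℝ) ^ 2 / 2 ^ n / 2 ^ n = ((A.card : ℝ) / 2 ^ n) ^ 2 := by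
    field_simp
  rw [e4] at h01
  show _ ≤ ∑ i, (b i * (1 - b i / 4) / Real.log (4 / b i))
  nlinarith

end Pool.Agent.W267.HC
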