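import Pool.Agent.W267.HC4

set_option autoImplicit false

namespace Pool.Agent.W267.HC

open Finset

/-- the cylinder over `B` in direction `j`, when all points of `B` have `j`-th coordinate `v` -/
def cyl {n : ℕ} (j : Fin n) (v : Bool) (B : Finset (Fin n → Bool)) : Finset (Fin n → Bool) :=
  univ.filter (fun x => Function.update x j v ∈ B)

lemma ind_cyl {n : ℕ} (j : Fin n) (v : Bool) (B : Finset (Fin n → Bool))
    (hB : ∀ x ∈ B, x j = v) (x : Fin n → Bool) :
    ind (cyl j v B) x = ind B x + ind B (flp j x) := by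
  unfold ind cyl
  simp only [Finset.mem_filter, Finset.mem_univ, true_and]
  by_cases h : x j = v
  · have e1 : Function.update x j v = x := by rw [← h]; simp
    have e2 : flp j x ∉ B := by
      intro hm
      have := hB _ hm
      rw [flp_self, h] at this
      cases v <;> simp at this
    rw [e1, if_neg e2]; simp
  · have e1 : Function.update x j v = flp j x := by
      unfold flp
      congr 1
      cases hx : x j <;> cases hv : v <;> simp_all
    have e2 : x ∉ B := fun hm => h (hB _ hm)
    rw [e1, if_neg e2]; simp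

lemma sum_cyl {n : ℕ} (j : Fin n) (v : Bool) (B : Finset (Fin n → Bool))
    (hB : ∀ x ∈ B, x j = v) (G : (Fin n → Bool) → ℝ) (hG : ∀ x, G (flp j x) = G x) :
    ∑ x, ind (cyl j v B) x * G x = 2 * ∑ x, ind B x * G x := by
  have h : ∑ x, ind B (flp j x) * G x = ∑ x, ind B x * G x := by
    rw [← sum_flp j (fun x => ind B x * G x)]
    exact Finset.sum_congr rfl fun x _ => by rw [hG]
  simp_rw [ind_cyl j v B hB, add_mul]
  rw [Finset.sum_add_distrib, h, two_mul]

lemma card_cyl {n : ℕ} (j : Fin n) (v : Bool) (B : Finset (Fin n → Bool))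
    (hB : ∀ x ∈ B, x j = v) : ((cyl j v B).card : ℝ) = 2 * (B.card : ℝ) := by
  have h := sum_cyl j v B hB (fun _ => 1) (fun _ => rfl)
  unfold ind at h
  simpa using h

lemma stab_cyl {n : ℕ} (t : ℝ) (j : Fin n) (v : Bool) (B : Finset (Fin n → Bool))
    (hB : ∀ x ∈ B, x j = v) :
    stab t (ind B) (ind B) = (1 + t) / 4 * stab t (ind (cyl j v B)) (ind (cyl j v B)) := by
  set d := ind (cyl j v B) with hd
  have hdf : ∀ x, d (flp j x) = d x := by
    intro x
    rw [hd, ind_cyl j v B hB, ind_cyl j v B hB, flp_invol j x, add_comm]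
  -- twice the stability of the cylinder
  have B1 : stab t d d = ∑ x, ∑ y, d x * d y * (kap t (x j) (!(y j)) * kr t j x y) := by
    unfold stab
    refine Finset.sum_congr rfl fun x _ => ?_
    rw [← sum_flp j (fun y => d x * d y * ker t x y)]
    refine Finset.sum_congr rfl fun y _ => ?_
    rw [ker_eq t j, kr_flp_right, flp_self, hdf]
  have B2 : 2 * stab t d d = ∑ x, ∑ y, d x * d y * kr t j x y := by
    rw [two_mul]
    nth_rw 2 [B1]
    unfold stab
    rw [← Finset.sum_add_distrib]
    refine Finset.sum_congr rfl fun x _ => ?_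
    rw [← Finset.sum_add_distrib]
    refine Finset.sum_congr rfl fun y _ => ?_
    rw [ker_eq t j]
    have := kap_add t (x j) (y j)
    linear_combination (d x * d y * kr t j x y) * this
  have C1 : ∑ x, ∑ y, d x * d y * kr t j x y = 4 * ∑ x, ∑ y, ind B x * ind B y * kr t j x y := by
    have s1 : ∀ x, ∑ y, d x * d y * kr t j x y = d x * (2 * ∑ y, ind B y * kr t j x y) := by
      intro x
      rw [← sum_cyl j v B hB (fun y => kr t j x y) (fun y => kr_flp_right t j x y), Finset.mul_sum]
      exact Finset.sum_congr rfl fun y _ => by ring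
    simp_rw [s1]
    rw [hd, sum_cyl j v B hB (fun x => 2 * ∑ y, ind B y * kr t j x y)
      (fun x => by simp_rw [kr_flp_left])]
    rw [Finset.mul_sum, Finset.mul_sum]
    refine Finset.sum_congr rfl fun x _ => ?_
    simp_rw [Finset.mul_sum]
    exact Finset.sum_congr rfl fun y _ => by ring
  have C2 : stab t (ind B) (ind B) = (1 + t) / 2 * ∑ x, ∑ y, ind B x * ind B y * kr t j x y := by
    unfold stab
    rw [Finset.mul_sum]
    refine Finset.sum_congr rfl fun x _ => ?_
    rw [Finset.mul_sum]
    refine Finset.sum_congr rfl fun y _ => ?_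
    by_cases hx : x ∈ B
    · by_cases hy : y ∈ B
      · rw [ker_eq t j, hB x hx, hB y hy]
        have : kap t v v = (1 + t) / 2 := by simp [kap]
        rw [this]; ring
      · have : ind B y = 0 := by unfold ind; rw [if_neg hy]
        rw [this]; ring
    · have : ind B x = 0 := by unfold ind; rw [if_neg hx]
      rw [this]; ring
  rw [C2]
  linear_combination (-(1 + t) / 8) * B2 - (1 + t) / 8 * C1

/-- stability of a set contained in a subcube fixing the coordinates in `J` -/
lemma hyper_sub {n : ℕ} {t : ℝ} (ht0 : 0 ≤ t) (ht1 : t ≤ 1) (J : Finset (Fin n)) :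
    ∀ B : Finset (Fin n → Bool), (∀ j ∈ J, ∀ x ∈ B, ∀ y ∈ B, x j = y j) →
    stab t (ind B) (ind B) ≤
      ((1 + t) / 4) ^ J.card * (2 ^ n * (2 ^ J.card * ((B.card : ℝ) / 2 ^ n)) ^ (2 / (1 + t))) := by
  induction J using Finset.induction_on with
  | empty =>
    intro B _
    simpa using hyper_ind ht0 ht1 B
  | insert j J hj ih =>
    intro B hB
    rcases B.eq_empty_or_nonempty with h | ⟨x0, hx0⟩
    · subst h
      have : stab t (ind (∅ : Finset (Fin n → Bool))) (ind ∅) = 0 := by
        unfold stab ind; simp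
      rw [this]
      positivity
    · set v := x0 j with hv
      have hBv : ∀ x ∈ B, x j = v := fun x hx => hB j (Finset.mem_insert_self _ _) x hx x0 hx0
      have h1 := ih (cyl j v B) (by
        intro k hk x hx y hy
        have hkj : k ≠ j := fun h => hj (h ▸ hk)
        unfold cyl at hx hy
        simp only [Finset.mem_filter, Finset.mem_univ, true_and] at hx hy
        have := hB k (Finset.mem_insert_of_mem hk) _ hx _ hy
        rwa [Function.update_of_ne hkj, Function.update_of_ne hkj] at this)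
      rw [stab_cyl t j v B hBv]
      rw [card_cyl j v B hBv] at h1
      have h2 := mul_le_mul_of_nonneg_left h1 (show 0 ≤ (1 + t) / 4 by linarith)
      refine le_trans h2 (le_of_eq ?_)
      rw [Finset.card_insert_of_notMem hj, pow_succ, pow_succ]
      have : (2:ℝ) ^ J.card * (2 * (B.card : ℝ) / 2 ^ n) = 2 ^ J.card * 2 * ((B.card : ℝ) / 2 ^ n) := by ring
      rw [this]
      ring

/-- a second primitive -/
noncomputable def KK (b l t : ℝ) : ℝ := 2 * b / l * ((1 + t) / 2) ^ l

lemma KK_deriv {b l t : ℝ} (hl : 0 < l) (ht : 0 ≤ t) :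
    HasDerivAt (fun t => KK b l t) (b * ((1 + t) / 2) ^ (l - 1)) t := by
  have h1 : (1 + t) / 2 ≠ 0 := by
    have : 0 < (1 + t) / 2 := by linarith
    exact this.ne'
  have hs : HasDerivAt (fun t : ℝ => (1 + t) / 2) (1 / 2) t :=
    ((hasDerivAt_id t).const_add 1).div_const 2
  have h := (hs.rpow_const (p := l) (Or.inl h1)).const_mul (2 * b / l)
  have e : b * ((1 + t) / 2) ^ (l - 1) = 2 * b / l * (1 / 2 * l * ((1 + t) / 2) ^ (l - 1)) := by
    field_simp
  rw [e]
  unfold KK
  exact h

/-- the pointwise bound with the codimension -/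
lemma KK_ge {b t : ℝ} {c : ℕ} (hb : 0 < b) (hr : 2 ^ c * b ≤ 1) (ht0 : 0 ≤ t) (ht1 : t ≤ 1) :
    ((1 + t) / 4) ^ c * (2 ^ c * b) ^ (2 / (1 + t)) ≤
      b * ((1 + t) / 2) ^ ((1 + Real.log (1 / b) + (1 - Real.log 2) * c) - 1) := by
  have h1 : 0 < 1 + t := by linarith
  set r : ℝ := 2 ^ c * b with hrdef
  have hr0 : 0 < r := by positivity
  set s := (1 - t) / (1 + t) with hs
  have hs0 : 0 ≤ s := div_nonneg (by linarith) h1.le
  have e1 : 2 / (1 + t) = 1 + s := by rw [hs]; field_simp; ring
  have h2 : 0 < (1 + t) / 2 := by linarith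
  -- r ^ s ≤ ((1+t)/2) ^ log (1/r)
  have hk : r ^ s ≤ ((1 + t) / 2) ^ (Real.log (1 / r)) := by
    rw [Real.rpow_def_of_pos hr0, Real.rpow_def_of_pos h2]
    apply Real.exp_le_exp.2
    have hlr : Real.log r ≤ 0 := Real.log_nonpos hr0.le hr
    have e2 : Real.log (1 / r) = - Real.log r := by rw [one_div, Real.log_inv]
    rw [e2]
    -- log ((1+t)/2) ≥ -s
    have h3 : - s ≤ Real.log ((1 + t) / 2) := by
      have := Real.one_sub_inv_le_log_of_pos h2
      refine le_trans (le_of_eq ?_) this
      rw [hs, inv_div]; field_simp; ring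
    nlinarith
  have e3 : Real.log (1 / r) = Real.log (1 / b) - c * Real.log 2 := by
    rw [hrdef, one_div, one_div, Real.log_inv, Real.log_inv, Real.log_mul (by positivity) hb.ne',
      Real.log_pow]
    ring
  have e4 : (1 + Real.log (1 / b) + (1 - Real.log 2) * c) - 1 = (c : ℝ) + Real.log (1 / r) := by
    rw [e3]; ring
  rw [e4, Real.rpow_add h2, Real.rpow_natCast, e1, Real.rpow_add hr0, Real.rpow_one]
  have e5 : ((1 + t) / 4) ^ c * (r * r ^ s) = b * (((1 + t) / 2) ^ c * r ^ s) := by
    have : ((1 + t) / 4) ^ c * 2 ^ c = ((1 + t) / 2) ^ c := by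
      rw [← mul_pow]; congr 1; ring
    rw [← this, hrdef]; ring
  rw [e5]
  gcongr

end Pool.Agent.W267.HC
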