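import Pool.Agent.W267.HC5

set_option autoImplicit false

namespace Pool.Agent.W267.HC

open Finset

lemma card_sub {n : ℕ} (J : Finset (Fin n)) :
    ∀ B : Finset (Fin n → Bool), (∀ j ∈ J, ∀ x ∈ B, ∀ y ∈ B, x j = y j) →
    2 ^ J.card * ((B.card : ℝ) / 2 ^ n) ≤ 1 := by
  induction J using Finset.induction_on with
  | empty =>
    intro B _
    simpa using card_le B
  | insert j J hj ih =>
    intro B hB
    rcases B.eq_empty_or_nonempty with h | ⟨x0, hx0⟩
    · subst h; simp
    · set v := x0 j with hv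
      have hBv : ∀ x ∈ B, x j = v := fun x hx => hB j (Finset.mem_insert_self _ _) x hx x0 hx0
      have h1 := ih (cyl j v B) (by
        intro k hk x hx y hy
        have hkj : k ≠ j := fun h => hj (h ▸ hk)
        unfold cyl at hx hy
        simp only [Finset.mem_filter, Finset.mem_univ, true_and] at hx hy
        have := hB k (Finset.mem_insert_of_mem hk) _ hx _ hy
        rwa [Function.update_of_ne hkj, Function.update_of_ne hkj] at this)
      rw [card_cyl j v B hBv] at h1
      rw [Finset.card_insert_of_notMem hj, pow_succ]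
      refine le_trans (le_of_eq ?_) h1
      ring

/-- the number of coordinates on which all points of `B` agree -/
def cod {n : ℕ} (B : Finset (Fin n → Bool)) : ℕ :=
  (univ.filter (fun j : Fin n => ∀ x ∈ B, ∀ y ∈ B, x j = y j)).card

lemma cod_card {n : ℕ} (B : Finset (Fin n → Bool)) :
    2 ^ cod B * ((B.card : ℝ) / 2 ^ n) ≤ 1 := by
  apply card_sub
  intro j hj
  simpa using hj

lemma hyper_cod {n : ℕ} {t : ℝ} (ht0 : 0 ≤ t) (ht1 : t ≤ 1) (B : Finset (Fin n → Bool)) :
    stab t (ind B) (ind B) ≤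
      2 ^ n * (((1 + t) / 4) ^ cod B * (2 ^ cod B * ((B.card : ℝ) / 2 ^ n)) ^ (2 / (1 + t))) := by
  have h := hyper_sub ht0 ht1 (univ.filter (fun j : Fin n => ∀ x ∈ B, ∀ y ∈ B, x j = y j)) B (by
    intro j hj
    simpa using hj)
  refine le_trans h (le_of_eq ?_)
  unfold cod
  ring

lemma main_gen {n : ℕ} (A : Finset (Fin n → Bool)) (P D : Fin n → ℝ → ℝ)
    (hD1 : ∀ i t, 0 ≤ t → t ≤ 1 → HasDerivAt (P i) (D i t) t)
    (hD2 : ∀ i t, 0 ≤ t → t ≤ 1 → stab t (ind (piv A i)) (ind (piv A i)) ≤ 2 ^ n * D i t) :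
    4 * (((A.card : ℝ) / 2 ^ n) * (1 - (A.card : ℝ) / 2 ^ n)) ≤ ∑ i, (P i 1 - P i 0) := by
  have hpn : (0:ℝ) < 2 ^ n := by positivity
  set g : ℝ → ℝ := fun t => stab t (ind A) (ind A) / 2 ^ n - 1 / 4 * ∑ i, P i t with hg
  have hgd : ∀ t : ℝ, 0 ≤ t → t ≤ 1 →
      HasDerivAt g ((∑ i, dd t i (ind A)) / 2 ^ n - 1 / 4 * ∑ i, D i t) t := by
    intro t ht0 ht1
    apply HasDerivAt.sub
    · exact (stab_deriv t (ind A)).div_const _
    · apply HasDerivAt.const_mul
      apply HasDerivAt.fun_sum
      intro i _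
      exact hD1 i t ht0 ht1
  have hanti : AntitoneOn g (Set.Icc 0 1) := by
    apply antitoneOn_of_deriv_nonpos (convex_Icc 0 1)
    · intro t ht
      exact (hgd t ht.1 ht.2).continuousAt.continuousWithinAt
    · intro t ht
      rw [interior_Icc] at ht
      exact (hgd t ht.1.le ht.2.le).differentiableAt.differentiableWithinAt
    · intro t ht
      rw [interior_Icc] at ht
      rw [(hgd t ht.1.le ht.2.le).deriv]
      have hi : ∀ i ∈ (univ : Finset (Fin n)), dd t i (ind A) ≤ 2 ^ n * (1 / 4 * D i t) := by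
        intro i _
        have h1 := dd_le ht.1.le ht.2.le i (ind A) (ind (piv A i)) (ind_piv A i)
        have h2 := hD2 i t ht.1.le ht.2.le
        linarith
      have hs := Finset.sum_le_sum hi
      rw [← Finset.mul_sum, ← Finset.mul_sum] at hs
      have : (∑ i, dd t i (ind A)) / 2 ^ n ≤ 1 / 4 * ∑ i, D i t := by
        rw [div_le_iff₀ hpn]; linarith
      linarith
  have h01 := hanti (Set.left_mem_Icc.2 zero_le_one) (Set.right_mem_Icc.2 zero_le_one) zero_le_one
  simp only [hg] at h01
  rw [stab_one, stab_zero] at h01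
  have e1 : ∑ x, ind A x * ind A x = (A.card : ℝ) := by
    unfold ind; simp
  have e2 : ∑ x, ind A x = (A.card : ℝ) := by
    unfold ind; simp
  rw [e1, e2] at h01
  have e4 : (A.card : ℝ) ^ 2 / 2 ^ n / 2 ^ n = ((A.card : ℝ) / 2 ^ n) ^ 2 := by
    field_simp
  rw [e4] at h01
  rw [Finset.sum_sub_distrib]
  nlinarith

/-- influence of coordinate `i` on `A` -/
noncomputable def infl {n : ℕ} (A : Finset (Fin n → Bool)) (i : Fin n) : ℝ :=
  ((piv A i).card : ℝ) / 2 ^ n

/-- `1 + ln(1/β) + (1 - ln 2) c` -/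
noncomputable def lam {n : ℕ} (A : Finset (Fin n → Bool)) (i : Fin n) : ℝ :=
  1 + Real.log (1 / infl A i) + (1 - Real.log 2) * (cod (piv A i) : ℝ)

lemma infl_nonneg {n : ℕ} (A : Finset (Fin n → Bool)) (i : Fin n) : 0 ≤ infl A i := by
  unfold infl; positivity

lemma infl_le_one {n : ℕ} (A : Finset (Fin n → Bool)) (i : Fin n) : infl A i ≤ 1 := card_le _

lemma lam_pos {n : ℕ} (A : Finset (Fin n → Bool)) (i : Fin n) : 0 < lam A i := by
  unfold lam
  have h1 : 0 ≤ Real.log (1 / infl A i) := by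
    rcases (infl_nonneg A i).eq_or_lt with h | h
    · rw [← h]; simp
    · apply Real.log_nonneg
      rw [le_div_iff₀ h]; linarith [infl_le_one A i]
  have h2 : Real.log 2 < 1 := by linarith [Real.log_two_lt_d9]
  have h3 : 0 ≤ (1 - Real.log 2) * (cod (piv A i) : ℝ) := by
    apply mul_nonneg (by linarith) (by positivity)
  linarith

/-- the sharp form -/
theorem main_min {n : ℕ} (A : Finset (Fin n → Bool)) :
    2 * ((A.card : ℝ) / 2 ^ n) * (1 - (A.card : ℝ) / 2 ^ n) ≤
      ∑ i, min (infl A i * (1 - (1 / 2) ^ lam A i) / lam A i)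
        (infl A i * (1 - infl A i / 4) / Real.log (4 / infl A i)) := by
  have key : ∀ i : Fin n, ∃ P D : ℝ → ℝ,
      (∀ t, 0 ≤ t → t ≤ 1 → HasDerivAt P (D t) t) ∧
      (∀ t, 0 ≤ t → t ≤ 1 → stab t (ind (piv A i)) (ind (piv A i)) ≤ 2 ^ n * D t) ∧
      P 1 - P 0 = 2 * min (infl A i * (1 - (1 / 2) ^ lam A i) / lam A i)
        (infl A i * (1 - infl A i / 4) / Real.log (4 / infl A i)) := by
    intro i
    rcases (infl_nonneg A i).eq_or_lt with h | h
    · refine ⟨fun _ => 0, fun _ => 0, ?_, ?_, ?_⟩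
      · intro t _ _; exact hasDerivAt_const _ _
      · intro t ht0 ht1
        have h1 := hyper_ind ht0 ht1 (piv A i)
        have h2 : ((piv A i).card : ℝ) / 2 ^ n = 0 := h.symm
        rw [h2, Real.zero_rpow (by have : 0 < 1 + t := by linarith
                                   positivity)] at h1
        simpa using h1
      · rw [← h]; simp
    · rcases le_total (infl A i * (1 - (1 / 2) ^ lam A i) / lam A i)
        (infl A i * (1 - infl A i / 4) / Real.log (4 / infl A i)) with hm | hm
      · rw [min_eq_left hm]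
        refine ⟨fun t => KK (infl A i) (lam A i) t,
          fun t => infl A i * ((1 + t) / 2) ^ (lam A i - 1), ?_, ?_, ?_⟩
        · intro t ht0 _
          exact KK_deriv (lam_pos A i) ht0
        · intro t ht0 ht1
          have h1 := hyper_cod ht0 ht1 (piv A i)
          have h2 := KK_ge (c := cod (piv A i)) h (cod_card (piv A i)) ht0 ht1
          have h3 := mul_le_mul_of_nonneg_left h2 (show (0:ℝ) ≤ 2 ^ n by positivity)
          exact le_trans h1 h3
        · show 2 * infl A i / lam A i * (((1:ℝ) + 1) / 2) ^ lam A i -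
            2 * infl A i / lam A i * (((1:ℝ) + 0) / 2) ^ lam A i = _
          have e : ((1:ℝ) + 1) / 2 = 1 := by norm_num
          have e' : ((1:ℝ) + 0) / 2 = 1 / 2 := by norm_num
          rw [e, e', Real.one_rpow]
          ring
      · rw [min_eq_right hm]
        refine ⟨fun t => HH (infl A i) t,
          fun t => 4 * infl A i / (1 + t) ^ 2 * (infl A i / 4) ^ ((1 - t) / (1 + t)), ?_, ?_, ?_⟩
        · intro t ht0 _
          exact HH_deriv h (infl_le_one A i) ht0
        · intro t ht0 ht1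
          have h1 := hyper_ind ht0 ht1 (piv A i)
          have h2 := HH_deriv_ge h ht0 ht1
          have h3 := mul_le_mul_of_nonneg_left h2 (show (0:ℝ) ≤ 2 ^ n by positivity)
          exact le_trans h1 h3
        · exact HH_one_sub
  choose P D h1 h2 h3 using key
  have hm := main_gen A P D h1 h2
  simp_rw [h3] at hm
  rw [← Finset.mul_sum] at hm
  linarith

end Pool.Agent.W267.HC
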