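import Pool.Agent.W267.HC6

set_option autoImplicit false

namespace Pool.Agent.W267.HC

open Finset

lemma log22 : Real.log 22 ≤ 3.1 := by
  rw [Real.log_le_iff_le_exp (by norm_num)]
  have h1 : (2.7182818283 : ℝ) < Real.exp 1 := Real.exp_one_gt_d9
  have h2 : Real.exp 3.1 = Real.exp 1 ^ 3 * Real.exp 0.1 := by
    rw [← Real.exp_nat_mul, ← Real.exp_add]; norm_num
  have h3 : (1.105 : ℝ) ≤ Real.exp 0.1 := by
    have := Real.quadratic_le_exp_of_nonneg (show (0:ℝ) ≤ 0.1 by norm_num)
    norm_num at this ⊢; linarith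
  have h4 : (2.7182818283 : ℝ) ^ 3 ≤ Real.exp 1 ^ 3 := pow_le_pow_left₀ (by norm_num) h1.le 3
  have h5 : (20 : ℝ) ≤ (2.7182818283 : ℝ) ^ 3 := by norm_num
  rw [h2]
  nlinarith

lemma log9 : Real.log 9 ≤ 2.25 := by
  rw [Real.log_le_iff_le_exp (by norm_num)]
  have h1 : (2.7182818283 : ℝ) < Real.exp 1 := Real.exp_one_gt_d9
  have h2 : Real.exp 2.25 = Real.exp 1 ^ 2 * Real.exp 0.25 := by
    rw [← Real.exp_nat_mul, ← Real.exp_add]; norm_num
  have h3 : (1.28 : ℝ) ≤ Real.exp 0.25 := by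
    have := Real.quadratic_le_exp_of_nonneg (show (0:ℝ) ≤ 0.25 by norm_num)
    norm_num at this ⊢; linarith
  have h4 : (2.7182818283 : ℝ) ^ 2 ≤ Real.exp 1 ^ 2 := pow_le_pow_left₀ (by norm_num) h1.le 2
  have h5 : (7.3 : ℝ) ≤ (2.7182818283 : ℝ) ^ 2 := by norm_num
  rw [h2]
  nlinarith

lemma logb_eq (b : ℝ) : Real.logb 2 (1 / b) = Real.log (1 / b) / Real.log 2 := rfl

/-- entry of the second kind for influences at least 1/22 -/
lemma entryA {b : ℝ} (hb : 1 / 22 ≤ b) (hb1 : b < 1) :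
    b * (1 - b / 4) / Real.log (4 / b) ≤ b / Real.logb 2 (1 / b) := by
  have hb0 : 0 < b := lt_of_lt_of_le (by norm_num) hb
  have l1 := Real.log_two_gt_d9
  have l2 := Real.log_two_lt_d9
  set L := Real.log 2 with hL
  have hx : 0 < Real.log (1 / b) := Real.log_pos (by rw [lt_div_iff₀ hb0]; linarith)
  set x := Real.log (1 / b) with hxd
  have hx2 : x ≤ 3.1 := by
    refine le_trans ?_ log22
    apply Real.log_le_log (by positivity)
    rw [div_le_iff₀ hb0]; linarith
  have e4 : Real.log (4 / b) = 2 * L + x := by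
    have : (4:ℝ) / b = 2 ^ 2 * (1 / b) := by ring
    rw [this, Real.log_mul (by norm_num) (by positivity), Real.log_pow]
    push_cast; ring
  rw [logb_eq, e4, ← hxd, ← hL, div_div_eq_mul_div]
  rw [div_le_div_iff₀ (by positivity) hx]
  have h1 : x ≤ L * (2 * L + x) := by nlinarith
  have h2 : (1 - b / 4) * x ≤ x := by nlinarith
  calc b * (1 - b / 4) * x = b * ((1 - b / 4) * x) := by ring
    _ ≤ b * (L * (2 * L + x)) := by
        apply mul_le_mul_of_nonneg_left (le_trans h2 h1) hb0.le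
    _ = b * L * (2 * L + x) := by ring

/-- entry of the first kind for dense pivotal sets -/
lemma entryB {b l : ℝ} {c : ℕ} (hb0 : 0 < b) (hb1 : b < 1) (hc : 1 / 9 ≤ 2 ^ c * b)
    (hl : l = 1 + Real.log (1 / b) + (1 - Real.log 2) * c) :
    b * (1 - (1 / 2) ^ l) / l ≤ b / Real.logb 2 (1 / b) := by
  have l1 := Real.log_two_gt_d9
  have l2 := Real.log_two_lt_d9
  set L := Real.log 2 with hL
  have hx : 0 < Real.log (1 / b) := Real.log_pos (by rw [lt_div_iff₀ hb0]; linarith)
  set x := Real.log (1 / b) with hxd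
  have hr : x - c * L ≤ 2.25 := by
    refine le_trans ?_ log9
    have e : x - c * L = Real.log (1 / (2 ^ c * b)) := by
      rw [one_div, Real.log_inv, Real.log_mul (by positivity) hb0.ne', Real.log_pow, hxd, one_div,
        Real.log_inv]
      ring
    rw [e]
    apply Real.log_le_log (by positivity)
    rw [div_le_iff₀ (by positivity)]; linarith
  have hl0 : 0 < l := by
    rw [hl]
    have : 0 ≤ (1 - L) * (c : ℝ) := mul_nonneg (by linarith) (by positivity)
    linarith
  rw [logb_eq, ← hxd, ← hL, div_div_eq_mul_div, div_le_div_iff₀ hl0 hx]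
  have h1 : x ≤ L * l := by rw [hl]; nlinarith
  have h3 : (0:ℝ) ≤ (1 / 2) ^ l := by positivity
  have h2 : (1 - (1 / 2 : ℝ) ^ l) * x ≤ x := by nlinarith
  calc b * (1 - (1 / 2) ^ l) * x = b * ((1 - (1 / 2) ^ l) * x) := by ring
    _ ≤ b * (L * l) := mul_le_mul_of_nonneg_left (le_trans h2 h1) hb0.le
    _ = b * L * l := by ring

/-- entry of the second kind in general -/
lemma entryC {b : ℝ} (hb0 : 0 < b) (hb1 : b < 1) :
    Real.log 2 * (b * (1 - b / 4) / Real.log (4 / b)) ≤ b / Real.logb 2 (1 / b) := by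
  have l1 := Real.log_two_gt_d9
  have l2 := Real.log_two_lt_d9
  set L := Real.log 2 with hL
  have hx : 0 < Real.log (1 / b) := Real.log_pos (by rw [lt_div_iff₀ hb0]; linarith)
  set x := Real.log (1 / b) with hxd
  have e4 : Real.log (4 / b) = 2 * L + x := by
    have : (4:ℝ) / b = 2 ^ 2 * (1 / b) := by ring
    rw [this, Real.log_mul (by norm_num) (by positivity), Real.log_pow]
    push_cast; ring
  rw [logb_eq, e4, ← hxd, ← hL, div_div_eq_mul_div, ← mul_div_assoc]
  rw [div_le_div_iff₀ (by positivity) hx]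
  have h2 : (1 - b / 4) * x ≤ 2 * L + x := by nlinarith
  calc L * (b * (1 - b / 4)) * x = L * b * ((1 - b / 4) * x) := by ring
    _ ≤ L * b * (2 * L + x) := mul_le_mul_of_nonneg_left h2 (by positivity)
    _ = b * L * (2 * L + x) := by ring

theorem cor_dense {n : ℕ} (A : Finset (Fin n → Bool))
    (hA : ∀ i, infl A i = 0 ∨ 1 / 22 ≤ infl A i ∨ 1 / 9 ≤ 2 ^ cod (piv A i) * infl A i) :
    (∃ i, infl A i = 1) ∨
    2 * ((A.card : ℝ) / 2 ^ n) * (1 - (A.card : ℝ) / 2 ^ n) ≤
      ∑ i, infl A i / Real.logb 2 (1 / infl A i) := by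
  by_cases h1 : ∃ i, infl A i = 1
  · exact Or.inl h1
  · right
    push Not at h1
    refine le_trans (main_min A) (Finset.sum_le_sum fun i _ => ?_)
    have hlt : infl A i < 1 := lt_of_le_of_ne (infl_le_one A i) (h1 i)
    rcases (infl_nonneg A i).eq_or_lt with h0 | h0
    · rw [← h0]; simp
    · rcases hA i with h | h | h
      · exact absurd h h0.ne'
      · exact le_trans (min_le_right _ _) (entryA h hlt)
      · exact le_trans (min_le_left _ _) (entryB h0 hlt h rfl)

theorem cor_gen {n : ℕ} (A : Finset (Fin n → Bool)) :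
    (∃ i, infl A i = 1) ∨
    2 * Real.log 2 * (((A.card : ℝ) / 2 ^ n) * (1 - (A.card : ℝ) / 2 ^ n)) ≤
      ∑ i, infl A i / Real.logb 2 (1 / infl A i) := by
  by_cases h1 : ∃ i, infl A i = 1
  · exact Or.inl h1
  · right
    push Not at h1
    have hm := mul_le_mul_of_nonneg_left (main_min A) (show 0 ≤ Real.log 2 by positivity)
    rw [Finset.mul_sum] at hm
    refine le_trans (le_of_eq (by ring)) (le_trans hm (Finset.sum_le_sum fun i _ => ?_))
    have hlt : infl A i < 1 := lt_of_le_of_ne (infl_le_one A i) (h1 i)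
    rcases (infl_nonneg A i).eq_or_lt with h0 | h0
    · rw [← h0]; simp
    · exact le_trans (mul_le_mul_of_nonneg_left (min_le_right _ _) (by positivity)) (entryC h0 hlt)

end Pool.Agent.W267.HC
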