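import Pool.Agent.W267.HC7

set_option autoImplicit false

namespace Pool.Agent.W267.HC

open Finset

/-- the subcube fixing the coordinates in `J` to the values of `v` -/
def subc {n : ℕ} (J : Finset (Fin n)) (v : Fin n → Bool) : Finset (Fin n → Bool) :=
  univ.filter (fun x => ∀ j ∈ J, x j = v j)

lemma mem_subc {n : ℕ} (J : Finset (Fin n)) (v x : Fin n → Bool) :
    x ∈ subc J v ↔ ∀ j ∈ J, x j = v j := by
  unfold subc; simp

lemma card_subc {n : ℕ} (v : Fin n → Bool) (J : Finset (Fin n)) :
    (2:ℝ) ^ J.card * ((subc J v).card : ℝ) = 2 ^ n := by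
  induction J using Finset.induction_on with
  | empty => simp [subc]
  | insert j J hj ih =>
    have h1 : cyl j (v j) (subc (insert j J) v) = subc J v := by
      ext x
      rw [mem_subc]
      unfold cyl
      simp only [Finset.mem_filter, Finset.mem_univ, true_and, mem_subc]
      constructor
      · intro h k hk
        have hkj : k ≠ j := fun e => hj (e ▸ hk)
        have := h k (Finset.mem_insert_of_mem hk)
        rwa [Function.update_of_ne hkj] at this
      · intro h k hk
        rcases Finset.mem_insert.1 hk with rfl | hk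
        · simp
        · have hkj : k ≠ j := fun e => hj (e ▸ hk)
          rw [Function.update_of_ne hkj]; exact h k hk
    have h2 := card_cyl j (v j) (subc (insert j J) v) (by
      intro x hx
      exact (mem_subc _ _ _).1 hx j (Finset.mem_insert_self _ _))
    rw [h1] at h2
    rw [Finset.card_insert_of_notMem hj, pow_succ, ← ih, h2]
    ring

lemma piv_subc_in {n : ℕ} (v : Fin n → Bool) (J : Finset (Fin n)) (i : Fin n) (hi : i ∈ J) :
    piv (subc J v) i = subc (J.erase i) v := by
  ext x
  unfold piv
  simp only [Finset.mem_filter, Finset.mem_univ, true_and, mem_subc]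
  have a1 : (∀ j ∈ J, x j = v j) ↔ (x i = v i ∧ ∀ j ∈ J.erase i, x j = v j) := by
    constructor
    · intro h; exact ⟨h i hi, fun j hj => h j (Finset.mem_of_mem_erase hj)⟩
    · rintro ⟨h1, h2⟩ j hj
      by_cases e : j = i
      · rw [e]; exact h1
      · exact h2 j (Finset.mem_erase.2 ⟨e, hj⟩)
  have a2 : (∀ j ∈ J, Function.update x i (!(x i)) j = v j) ↔
      ((!(x i)) = v i ∧ ∀ j ∈ J.erase i, x j = v j) := by
    constructor
    · intro h
      refine ⟨by simpa using h i hi, fun j hj => ?_⟩
      have := h j (Finset.mem_of_mem_erase hj)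
      rwa [Function.update_of_ne (Finset.ne_of_mem_erase hj)] at this
    · rintro ⟨h1, h2⟩ j hj
      by_cases e : j = i
      · rw [e]; simpa using h1
      · rw [Function.update_of_ne e]; exact h2 j (Finset.mem_erase.2 ⟨e, hj⟩)
  rw [a1, a2]
  generalize (∀ j ∈ J.erase i, x j = v j) = P
  by_cases h : P
  · cases x i <;> cases v i <;> simp [h]
  · simp [h]

lemma piv_subc_out {n : ℕ} (v : Fin n → Bool) (J : Finset (Fin n)) (i : Fin n) (hi : i ∉ J) :
    piv (subc J v) i = ∅ := by
  ext x
  unfold piv
  simp only [Finset.mem_filter, Finset.mem_univ, true_and, mem_subc, Finset.notMem_empty, iff_false,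
    not_not]
  constructor
  · intro h j hj
    have e : j ≠ i := fun e => hi (e ▸ hj)
    rw [Function.update_of_ne e]; exact h j hj
  · intro h j hj
    have e : j ≠ i := fun e => hi (e ▸ hj)
    have := h j hj
    rwa [Function.update_of_ne e] at this

lemma cod_subc {n : ℕ} (v : Fin n → Bool) (K : Finset (Fin n)) : cod (subc K v) = K.card := by
  unfold cod
  congr 1
  ext j
  simp only [Finset.mem_filter, Finset.mem_univ, true_and, mem_subc]
  constructor
  · intro h
    by_contra hj
    have := h v (fun _ _ => rfl) (Function.update v j (!(v j))) (by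
      intro k hk
      have e : k ≠ j := fun e => hj (e ▸ hk)
      rw [Function.update_of_ne e])
    simp at this
  · intro hj x hx y hy
    rw [hx j hj, hy j hj]

theorem subc_eq {n : ℕ} (v : Fin n → Bool) (J : Finset (Fin n)) (hJ : J.Nonempty) :
    ∑ i, infl (subc J v) i * (1 - (1 / 2) ^ lam (subc J v) i) / lam (subc J v) i =
      2 * (((subc J v).card : ℝ) / 2 ^ n) * (1 - ((subc J v).card : ℝ) / 2 ^ n) := by
  have hk : 0 < J.card := hJ.card_pos
  have hp : ((subc J v).card : ℝ) / 2 ^ n = 1 / 2 ^ J.card := by
    rw [← card_subc v J]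
    have h0 : ((subc J v).card : ℝ) ≠ 0 := by
      intro h
      have := card_subc v J
      rw [h, mul_zero] at this
      exact absurd this.symm (by positivity)
    field_simp
  have hin : ∀ i ∈ J, infl (subc J v) i * (1 - (1 / 2) ^ lam (subc J v) i) / lam (subc J v) i =
      (2 / 2 ^ J.card) * (1 - (1 / 2) ^ J.card) / J.card := by
    intro i hi
    have hc : (J.erase i).card + 1 = J.card := Finset.card_erase_add_one hi
    have e1 : infl (subc J v) i = 1 / 2 ^ (J.erase i).card := by
      unfold infl
      rw [piv_subc_in v J i hi, ← card_subc v (J.erase i)]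
      have h0 : ((subc (J.erase i) v).card : ℝ) ≠ 0 := by
        intro h
        have := card_subc v (J.erase i)
        rw [h, mul_zero] at this
        exact absurd this.symm (by positivity)
      field_simp
    have e2 : lam (subc J v) i = (J.card : ℝ) := by
      unfold lam
      rw [e1, piv_subc_in v J i hi, cod_subc, one_div_one_div, Real.log_pow, ← hc]
      push_cast; ring
    rw [e1, e2, Real.rpow_natCast]
    have : (2:ℝ) / 2 ^ J.card = 1 / 2 ^ (J.erase i).card := by
      rw [← hc, pow_succ]; field_simp
    rw [this]
  have hout : ∀ i ∈ (univ : Finset (Fin n)), i ∉ J →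
      infl (subc J v) i * (1 - (1 / 2) ^ lam (subc J v) i) / lam (subc J v) i = 0 := by
    intro i _ hi
    have : infl (subc J v) i = 0 := by
      unfold infl
      rw [piv_subc_out v J i hi]; simp
    rw [this]; simp
  rw [← Finset.sum_subset (Finset.subset_univ J) hout, Finset.sum_congr rfl hin, Finset.sum_const,
    nsmul_eq_mul, hp]
  have hkr : (J.card : ℝ) ≠ 0 := by exact_mod_cast hk.ne'
  rw [one_div_pow]
  field_simp

end Pool.Agent.W267.HC
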